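import Pool.Agent.Lib.MP_493565_co.Cay.Main

set_option autoImplicit false

namespace Pool.Agent.Retired.MP_493565_co.Cayley

open Pool.Agent.Lib.MP_493565_co

/-- For every `K` there is a Cayley graph `G` of a finite group (left multiplications are
automorphisms), uncoloured, connected and with connected complement, such that for `1 ≤ k ≤ K` the
`k`-dim WL method refines `G` to its orbits and, for every vertex `v`, the WL class of `v` is not a
singleton and the method does not refine the vertex-stabilised graph `G_v` to its orbits. -/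
theorem result : ∀ K : ℕ,
    ∃ (V : Type) (_ : Fintype V) (_ : Group V) (G : SimpleGraph V),
      (∀ g a b : V, G.Adj (g * a) (g * b) ↔ G.Adj a b) ∧ G.Connected ∧ Gᶜ.Connected ∧
      ∀ k : ℕ, 1 ≤ k → k ≤ K → RefinesToOrbits k G (fun _ => ()) ∧
        ∀ v : V, (∃ w : V, w ≠ v ∧ SameVertexColour k (stableWL k G (fun _ => ())) v w) ∧
          ¬ RefinesToOrbits k G (individualise (fun _ => ()) v) := by
  classical
  intro K
  refine ⟨Cay.CV (K + 1), inferInstance, inferInstance, Cay.CG (K + 1), Cay.CG_mul,
    Cay.connected (by omega), Cay.compl_connected, fun k _ hk => ⟨fun u v => ?_, fun v => ⟨?_, ?_⟩⟩⟩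
  · exact ⟨fun _ => Cay.sameOrbit_all u v, sameColour_of_sameOrbit⟩
  · obtain ⟨w, hw⟩ := Cay.exists_ne' v
    exact ⟨w, hw, sameColour_of_sameOrbit (Cay.sameOrbit_all v w)⟩
  · exact Cay.not_refines (by omega) v

end Pool.Agent.Retired.MP_493565_co.Cayley
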